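import Pool.Agent.SGD.Stmts
import Pool.Agent.Helper73_SGY.Asm

/-!
# SGD, row ASM (helper65): the triangulated triangle and two chains
-/

set_option autoImplicit false

noncomputable section

namespace Pool.Agent.SGD.H65

open Pool.Agent.SGE Pool.Agent.SGP Pool.Agent.SGY Pool.Agent.SGD

theorem o_rot (p q r : ℝ × ℝ) : o p q r = o q r p := by unfold o; ring

section

variable {V : Type} {a b c : V} {E : V → V → Prop} {F : V → V → V → Prop}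

theorem inn_rot (a b c : V) (E : V → V → Prop) : Inn c a b E = Inn a b c E := by
  ext x
  constructor
  · rintro ⟨h1, h2, h3, h4⟩
    exact ⟨h2, h3, h1, h4⟩
  · rintro ⟨h1, h2, h3, h4⟩
    exact ⟨h3, h1, h2, h4⟩

theorem gdt_rot {f : V → ℝ × ℝ} (h : GdT c a b E F f) : GdT a b c E F f := by
  refine ⟨h.gp, ?_, ?_, h.fac⟩
  · rw [← o_rot (f c) (f a) (f b)]
    exact h.tri
  · intro x hx
    have h1 := h.ins x (by rw [inn_rot]; exact hx)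
    exact ⟨h1.2.1, h1.2.2, h1.1⟩

theorem ps_cases (b c : V) (k : ℕ) (π : ℕ → V) (i : ℕ) :
    (i = 0 ∧ ps b c k π i = c) ∨ (1 ≤ i ∧ i ≤ k ∧ ps b c k π i = π i) ∨
      (k < i ∧ 1 ≤ i ∧ ps b c k π i = b) := by
  by_cases h0 : i = 0
  · left
    exact ⟨h0, if_pos h0⟩
  · by_cases h1 : i ≤ k
    · right
      left
      refine ⟨Nat.one_le_iff_ne_zero.2 h0, h1, ?_⟩
      unfold ps
      rw [if_neg h0, if_pos h1]
    · right
      right
      refine ⟨not_le.1 h1, Nat.one_le_iff_ne_zero.2 h0, ?_⟩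
      unfold ps
      rw [if_neg h0, if_neg h1]

theorem ps_inj {I : Set V} {k : ℕ} {π : ℕ → V} (hbc : b ≠ c) (hb : b ∉ I) (hc : c ∉ I)
    (hin : ∀ i, 1 ≤ i → i ≤ k → π i ∈ I)
    (hij : ∀ i j, 1 ≤ i → i ≤ k → 1 ≤ j → j ≤ k → π i = π j → i = j) (i j : ℕ)
    (hi : i ≤ k + 1) (hj : j ≤ k + 1) (h : ps b c k π i = ps b c k π j) : i = j := by
  rcases ps_cases b c k π i with ⟨h1, h2⟩ | ⟨h1, h1', h2⟩ | ⟨h1, h1', h2⟩ <;>
  rcases ps_cases b c k π j with ⟨h3, h4⟩ | ⟨h3, h3', h4⟩ | ⟨h3, h3', h4⟩ <;>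
  rw [h2, h4] at h
  · omega
  · exact absurd (h ▸ hin j h3 h3') hc
  · exact absurd h.symm hbc
  · exact absurd (h ▸ hin i h1 h1') hc
  · exact hij i j h1 h1' h3 h3' h
  · exact absurd (h ▸ hin i h1 h1') hb
  · exact absurd h hbc
  · exact absurd (h ▸ hin j h3 h3') hb
  · omega

end

theorem asm (siz : SizStmt) (csg : CsgStmt) (sgn : SgnStmt) : AsmStmt := by
  intro V _ a b c E F hN hS k₁ k₂ hk₁ hk₂ hk D₁ D₂
  classical
  obtain ⟨hab, hac, hbc⟩ := Pool.Agent.SGY.H6.nds hN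
  obtain ⟨K, E₁, F₁, E₂, F₂, hC, hK⟩ := siz hN hS k₂ hk₂ (by omega)
  have hKs : (Inn a b c E \ K).ncard + K.ncard = (Inn a b c E).ncard :=
    Set.ncard_sdiff_add_ncard_of_subset hC.sub (Set.toFinite _)
  obtain ⟨f₁, π₁, hT₁', hY₁⟩ := Pool.Agent.SGY.H73.mayA k₁ D₁
    (Pool.Agent.SGP.H77.rot (Pool.Agent.SGP.H77.rot hC.nt1))
    (by rw [inn_rot, hC.inn1]; omega)
  obtain ⟨f₂, π₂, hT₂', hY₂⟩ := Pool.Agent.SGY.H73.mayA k₂ D₂
    (Pool.Agent.SGP.H77.rot hC.nt2) (by rw [inn_rot, inn_rot, hC.inn2]; omega)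
  have hT₁ : GdT a b c E₁ F₁ f₁ := gdt_rot hT₁'
  have hT₂ : GdT a b c E₂ F₂ f₂ := gdt_rot (gdt_rot hT₂')
  rw [inn_rot] at hY₁
  rw [inn_rot, inn_rot] at hY₂
  have haK : a ∉ K := fun h => (hC.sub h).1 rfl
  have hbK : b ∉ K := fun h => (hC.sub h).2.1 rfl
  have hcK : c ∉ K := fun h => (hC.sub h).2.2.1 rfl
  obtain ⟨g, hg⟩ := Pool.Agent.SGY.H22.glu K {x | Rel E x} f₁ f₂ hab hac hbc haK hbK hcK
    hT₁.tri hT₂.tri
    (by
      intro x hx hxK hxa hxc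
      by_cases hxb : x = b
      · subst hxb
        have h := hT₁.tri
        rw [o_rot, o_rot] at h
        exact h
      · have hxI : x ∈ Inn a b c E₁ := by
          rw [hC.inn1]
          exact ⟨⟨hxa, hxb, hxc, hx⟩, hxK⟩
        exact (hT₁.ins x hxI).2.2)
    (by
      intro x hx
      exact hT₂.ins x (by rw [hC.inn2]; exact hx))
  have hT : GdT a b c E F g := csg hN hC hT₁ hT₂ (fun x y z hx hy hz => hg x y z hx hy hz)
  have hX : GdX k₁ k₂ D₁ D₂ (fun i => g (ps a b k₁ π₁ i)) (fun j => g (ps c a k₂ π₂ j)) :=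
    sgn hN hC hY₁ hY₂ (fun x y z hx hy hz => hg x y z hx hy hz)
  obtain ⟨ra, rb, rc⟩ := Pool.Agent.SGY.H6.rels hN
  have h1 : ∀ i, 1 ≤ i → i ≤ k₁ → π₁ i ∈ Inn a b c E \ K := by
    intro i hi hi'
    have h := hY₁.pin i hi hi'
    rw [hC.inn1] at h
    exact h
  have h2 : ∀ i, 1 ≤ i → i ≤ k₂ → π₂ i ∈ K := by
    intro i hi hi'
    have h := hY₂.pin i hi hi'
    rw [hC.inn2] at h
    exact h
  refine ⟨g, ps a b k₁ π₁, ps c a k₂ π₂, hT, hX, ?_, ?_, ?_, ?_, ?_, ?_⟩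
  · rcases ps_cases a b k₁ π₁ (k₁ + 1) with ⟨h, -⟩ | ⟨-, h, -⟩ | ⟨-, -, h⟩
    · omega
    · omega
    · rw [h]
      unfold ps
      rw [if_pos rfl]
  · intro i hi
    rcases ps_cases a b k₁ π₁ i with ⟨-, h⟩ | ⟨h3, h4, h⟩ | ⟨-, -, h⟩
    · rw [h]
      exact rb
    · rw [h]
      exact (h1 i h3 h4).1.2.2.2
    · rw [h]
      exact ra
  · intro i hi
    rcases ps_cases c a k₂ π₂ i with ⟨-, h⟩ | ⟨h3, h4, h⟩ | ⟨-, -, h⟩
    · rw [h]
      exact ra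
    · rw [h]
      exact (hC.sub (h2 i h3 h4)).2.2.2
    · rw [h]
      exact rc
  · exact ps_inj (I := Inn a b c E \ K) hab (fun h => h.1.1 rfl) (fun h => h.1.2.1 rfl) h1 hY₁.pij
  · exact ps_inj (I := K) hac.symm hcK haK h2 hY₂.pij
  · intro i j hi hj hj' h
    have hp : ps a b k₁ π₁ i ∉ K ∧ ps a b k₁ π₁ i ≠ c := by
      rcases ps_cases a b k₁ π₁ i with ⟨-, h⟩ | ⟨h3, h4, h⟩ | ⟨h3, -, -⟩
      · rw [h]
        exact ⟨hbK, hbc⟩
      · rw [h]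
        exact ⟨(h1 i h3 h4).2, (h1 i h3 h4).1.2.2.1⟩
      · omega
    rcases ps_cases c a k₂ π₂ j with ⟨h3, -⟩ | ⟨h3, h4, h5⟩ | ⟨-, -, h5⟩
    · omega
    · rw [h, h5] at hp
      exact hp.1 (h2 j h3 h4)
    · rw [h, h5] at hp
      exact hp.2 rfl

end Pool.Agent.SGD.H65
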